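import Pool.Agent.H50.Inh.Defs
import Pool.Agent.H50.Inh.Cayley

/-!
# Inherence of two-rooted graphs with roots in different components: few small tree components

The graph without avoidable copies is `H` with many copies of a rooted regular graph of large
girth attached at every vertex.
-/

set_option autoImplicit false
open Classical

namespace Pool.Agent.Results.MP_4a1452_co.FewSmallTrees

open Pool.Agent.H50.Inh

variable {W P : Type}

/-- The component `C` of `H` is a tree of maximum degree at most `k`. -/
def SmallTree (H : SimpleGraph W) (k : ℕ) (C : H.ConnectedComponent) : Prop :=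
  ∀ v, H.connectedComponentMk v = C →
    (H.neighborSet v).ncard ≤ k ∧ ∀ w : H.Walk v v, ¬ w.IsCycle

/-! ### the graph -/

/-- `H` with `N` copies of the rooted graph `(R, none)` attached at every vertex. -/
def attach (H : SimpleGraph W) (N : ℕ) (R : SimpleGraph (Option P)) :
    SimpleGraph (W ⊕ (W × Fin N × P)) where
  Adj u v := match u, v with
    | .inl x, .inl y => H.Adj x y
    | .inl x, .inr (y, _, q) => x = y ∧ R.Adj none (some q)
    | .inr (x, _, p), .inl y => x = y ∧ R.Adj none (some p)
    | .inr (x, i, p), .inr (y, j, q) => x = y ∧ i = j ∧ R.Adj (some p) (some q)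
  symm := by
    constructor
    rintro (x | ⟨x, i, p⟩) (y | ⟨y, j, q⟩) h
    · exact SimpleGraph.Adj.symm h
    · exact ⟨h.1.symm, h.2⟩
    · exact ⟨h.1.symm, h.2⟩
    · exact ⟨h.1.symm, h.2.1.symm, SimpleGraph.Adj.symm h.2.2⟩
  loopless := by
    constructor
    rintro (x | ⟨x, i, p⟩) h
    · exact H.loopless.irrefl x h
    · exact R.loopless.irrefl _ h.2.2

/-- The core is an induced copy. -/
def core (H : SimpleGraph W) (N : ℕ) (R : SimpleGraph (Option P)) : H ↪g attach H N R where
  toFun := Sum.inl
  inj' := Sum.inl_injective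
  map_rel_iff' := Iff.rfl

/-- the copy of `R` with number `i` attached at `x` -/
def loc {N : ℕ} (x : W) (i : Fin N) : Option P → W ⊕ (W × Fin N × P)
  | none => .inl x
  | some q => .inr (x, i, q)

theorem loc_inj {N : ℕ} (x : W) (i : Fin N) :
    Function.Injective (loc x i : Option P → W ⊕ (W × Fin N × P)) := by
  rintro (_ | a) (_ | b) h
  · rfl
  · cases h
  · cases h
  · simp only [loc, Sum.inr.injEq, Prod.mk.injEq, true_and] at h
    rw [h]

section

variable {H : SimpleGraph W} {N : ℕ} {R : SimpleGraph (Option P)}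

theorem loc_adj (x : W) (i : Fin N) (a b : Option P) :
    (attach H N R).Adj (loc x i a) (loc x i b) ↔ R.Adj a b := by
  rcases a with _ | a <;> rcases b with _ | b
  · constructor
    · intro h
      exact absurd h (H.loopless.irrefl x)
    · intro h
      exact absurd h (R.loopless.irrefl _)
  · exact ⟨fun h => h.2, fun h => ⟨rfl, h⟩⟩
  · exact ⟨fun h => SimpleGraph.Adj.symm h.2, fun h => ⟨rfl, SimpleGraph.Adj.symm h⟩⟩
  · exact ⟨fun h => h.2.2, fun h => ⟨rfl, rfl, h⟩⟩

theorem loc_nbr {x : W} {i : Fin N} {p : P} {v : W ⊕ (W × Fin N × P)}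
    (h : (attach H N R).Adj (.inr (x, i, p)) v) : ∃ b, v = loc x i b ∧ R.Adj (some p) b := by
  rcases v with y | ⟨y, j, q⟩
  · obtain ⟨h1, h2⟩ := h
    subst h1
    exact ⟨none, rfl, SimpleGraph.Adj.symm h2⟩
  · obtain ⟨h1, h2, h3⟩ := h
    subst h1; subst h2
    exact ⟨some q, rfl, h3⟩

theorem sep {x : W} {i : Fin N} {u v : W ⊕ (W × Fin N × P)} (p : (attach H N R).Walk u v)
    (hu : ∃ q, u = loc x i q) (hv : ∀ q : P, v ≠ .inr (x, i, q)) :
    (Sum.inl x : W ⊕ (W × Fin N × P)) ∈ p.support := by
  induction p with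
  | nil =>
    obtain ⟨q | q, hq⟩ := hu
    · rw [SimpleGraph.Walk.support_nil, hq]
      exact List.mem_singleton.2 rfl
    · exact absurd hq (hv q)
  | @cons a b c h p ih =>
    obtain ⟨q | q, rfl⟩ := hu
    · exact SimpleGraph.Walk.start_mem_support _
    · rw [SimpleGraph.Walk.support_cons]
      right
      obtain ⟨b', hb, -⟩ := loc_nbr h
      exact ih ⟨b', hb⟩ hv

/-- a path between two vertices of a copy of `R` stays there -/
theorem stay {x : W} {i : Fin N} {u v : W ⊕ (W × Fin N × P)} (p : (attach H N R).Walk u v)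
    (hp : p.IsPath) (hu : ∃ q, u = loc x i q) (hv : ∃ q, v = loc x i q) :
    ∀ z ∈ p.support, ∃ q, z = loc x i q := by
  intro z hz
  by_contra hno
  push Not at hno
  have h1 := sep (p.takeUntil z hz) hu fun q => hno (some q)
  have h2 := sep (p.dropUntil z hz).reverse hv fun q => hno (some q)
  rw [SimpleGraph.Walk.support_reverse, List.mem_reverse] at h2
  have h3 : (Sum.inl x : W ⊕ (W × Fin N × P)) ∈ (p.dropUntil z hz).support.tail := by
    have h4 : (p.dropUntil z hz).support = z :: (p.dropUntil z hz).support.tail :=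
      (SimpleGraph.Walk.cons_tail_support _).symm
    rw [h4] at h2
    rcases List.mem_cons.1 h2 with h5 | h5
    · exact absurd h5.symm (hno none)
    · exact h5
  have h4 := hp.support_nodup
  rw [← SimpleGraph.Walk.take_spec p hz, SimpleGraph.Walk.support_append] at h4
  exact List.disjoint_of_nodup_append h4 h1 h3

/-- a walk in a copy of `R` -/
theorem pull {x : W} {i : Fin N} {u v : W ⊕ (W × Fin N × P)} (p : (attach H N R).Walk u v) :
    ∀ a b, u = loc x i a → v = loc x i b → (∀ z ∈ p.support, ∃ q, z = loc x i q) →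
      ∃ w : R.Walk a b, w.length = p.length ∧ w.support.map (loc x i) = p.support := by
  induction p with
  | nil =>
    intro a b hu hv _
    have : a = b := loc_inj x i (hu.symm.trans hv)
    subst this
    exact ⟨.nil, rfl, by simp [hu]⟩
  | @cons u z v h p ih =>
    intro a b hu hv hz
    obtain ⟨c, hc⟩ := hz z (by simp)
    obtain ⟨w, hw1, hw2⟩ := ih c b hc hv fun y hy => hz y (by simp [hy])
    subst hu
    rw [hc, loc_adj] at h
    exact ⟨.cons h w, by simp [hw1], by simp [hw2]⟩

/-- the image of a path of `H` between vertices of a copy of `R` is a path of `R` -/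
theorem lift (φ : H ↪g attach H N R) {b b' : W} (p : H.Walk b b') (hp : p.IsPath) {x : W}
    {i : Fin N} {a a' : Option P} (ha : φ b = loc x i a) (ha' : φ b' = loc x i a') :
    ∃ w : R.Walk a a', w.IsPath ∧ w.length = p.length ∧
      ∀ z ∈ w.support, ∃ c, φ c = loc x i z := by
  have h1 : (p.map φ.toHom).IsPath := hp.map φ.injective
  have h2 := stay (p.map φ.toHom) h1 ⟨a, ha⟩ ⟨a', ha'⟩
  obtain ⟨w, hw1, hw2⟩ := pull (p.map φ.toHom) a a' ha ha' h2
  refine ⟨w, ?_, ?_, ?_⟩
  · apply SimpleGraph.Walk.IsPath.mk'
    apply List.Nodup.of_map (loc x i)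
    rw [hw2]
    exact h1.support_nodup
  · rw [hw1, SimpleGraph.Walk.length_map]
  · intro z hz
    have h3 : loc x i z ∈ w.support.map (loc x i) := List.mem_map_of_mem hz
    rw [hw2, SimpleGraph.Walk.support_map] at h3
    obtain ⟨c, -, hc⟩ := List.mem_map.1 h3
    exact ⟨c, hc⟩

/-- a component of `H` with a vertex in a pocket and a vertex elsewhere passes through the root of
the pocket -/
theorem escape (φ : H ↪g attach H N R) {b c : W} (h : H.Reachable b c) {x : W} {i : Fin N}
    {a : Option P} (ha : φ b = loc x i a) (hc : ∀ q : P, φ c ≠ .inr (x, i, q)) :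
    ∃ d, H.Reachable b d ∧ φ d = .inl x := by
  obtain ⟨p⟩ := h
  have h1 := sep (p.map φ.toHom) ⟨a, ha⟩ hc
  rw [SimpleGraph.Walk.support_map] at h1
  obtain ⟨d, hd, hd2⟩ := List.mem_map.1 h1
  exact ⟨d, ⟨p.takeUntil d hd⟩, hd2⟩

/-- a component of `H` without vertices in the core is a small tree -/
theorem small [Fintype W] {k n : ℕ} (hR : Pocket R k n) (hn : Fintype.card W ≤ n) (hn1 : 1 ≤ n)
    [Finite P] (φ : H ↪g attach H N R) {b : W}
    (hb : ∀ c, H.Reachable b c → ∀ y, φ c ≠ .inl y) :
    SmallTree H k (H.connectedComponentMk b) := by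
  obtain ⟨x, i, p, hp⟩ : ∃ x i p, φ b = .inr (x, i, p) := by
    rcases h : φ b with y | ⟨x, i, p⟩
    · exact absurd h (hb b (SimpleGraph.Reachable.refl _) y)
    · exact ⟨x, i, p, rfl⟩
  have hin : ∀ c, H.Reachable b c → ∃ q : P, φ c = .inr (x, i, q) := by
    intro c hc
    by_contra hno
    push Not at hno
    obtain ⟨d, hd1, hd2⟩ := escape φ hc (x := x) (i := i) (a := some p) hp hno
    exact hb d hd1 x hd2
  intro v hv
  have hbv : H.Reachable b v := (SimpleGraph.ConnectedComponent.exact hv).symm
  obtain ⟨q, hq⟩ := hin v hbv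
  constructor
  · rw [← hR.deg q]
    have h1 : ∀ a, H.Adj v a → ∃ z, φ a = loc x i z ∧ R.Adj (some q) z := by
      intro a ha
      have h2 := φ.map_adj_iff.2 ha
      rw [hq] at h2
      exact loc_nbr h2
    refine Set.ncard_le_ncard_of_injOn
      (fun a => if h : H.Adj v a then (h1 a h).choose else none) ?_ ?_ (Set.toFinite _)
    · intro a ha
      have ha' : H.Adj v a := ha
      simp only [ha', dif_pos]
      exact (h1 a ha').choose_spec.2
    · intro a ha a' ha' he
      have g1 : H.Adj v a := ha
      have g2 : H.Adj v a' := ha'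
      simp only [g1, g2, dif_pos] at he
      apply φ.injective
      rw [(h1 a g1).choose_spec.1, (h1 a' g2).choose_spec.1, he]
  · intro w hw
    cases w with
    | nil => exact absurd rfl hw.ne_nil
    | @cons _ c _ h w =>
      have h3 := hw.three_le_length
      rw [SimpleGraph.Walk.cons_isCycle_iff] at hw
      obtain ⟨q', hq'⟩ := hin c (hbv.trans h.reachable)
      obtain ⟨w', g1, g2, -⟩ := lift φ w hw.1 (x := x) (i := i) (a := some q') (a' := some q)
        hq' hq
      have h4 : R.Adj (some q') (some q) := by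
        have h5 := φ.map_adj_iff.2 h.symm
        rw [hq, hq'] at h5
        exact h5.2.2
      have h5 := hR.uniq _ _ w' (.cons h4 .nil) g1 (by simp [h4.ne])
        (by rw [g2]; exact hw.1.length_lt.le.trans hn) (by simpa using hn1)
      have h6 := congrArg List.length h5
      rw [SimpleGraph.Walk.length_support, SimpleGraph.Walk.length_support] at h6
      simp at h6 h3
      omega

/-- An unused copy at the vertex `x`. -/
theorem unused [Fintype W] (hN : Fintype.card W < N) (f : W → W ⊕ (W × Fin N × P)) (x : W) :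
    ∃ i : Fin N, ∀ a q, f a ≠ .inr (x, i, q) := by
  let i0 : Fin N := ⟨0, by omega⟩
  let g : W → Fin N := fun a => match f a with
    | .inl _ => i0
    | .inr (_, j, _) => j
  have hS : (Finset.univ.image g).card < (Finset.univ : Finset (Fin N)).card := by
    refine Finset.card_image_le.trans_lt ?_
    simpa using hN
  obtain ⟨i, -, hi⟩ := Finset.exists_mem_notMem_of_card_lt_card hS
  refine ⟨i, fun a q h => hi ?_⟩
  have : g a = i := by simp only [g, h]
  exact Finset.mem_image.2 ⟨a, Finset.mem_univ _, this⟩

/-- the pendant vertex at the root `s` -/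
theorem pick [Fintype W] [Finite P] {k n : ℕ} (hR : Pocket R k n) (hn : Fintype.card W + 4 ≤ n)
    (hN : Fintype.card W < N) {s : W} (hs : ¬ SmallTree H k (H.connectedComponentMk s))
    (hk : {C : H.ConnectedComponent | SmallTree H k C}.ncard + (H.neighborSet s).ncard < k)
    (φ : H ↪g attach H N R) :
    ∃ x i q, (∃ d, H.Reachable s d ∧ φ d = .inl x) ∧ (∀ a, φ a ≠ .inr (x, i, q)) ∧
      ∀ a, (attach H N R).Adj (.inr (x, i, q)) (φ a) ↔ a = s := by
  rcases hz : φ s with x | ⟨x, i, p⟩
  · -- an unused copy
    obtain ⟨i, hi⟩ := unused hN φ x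
    obtain ⟨q0, hq0⟩ := hR.root
    refine ⟨x, i, q0, ⟨s, SimpleGraph.Reachable.refl _, hz⟩, fun a => hi a q0, fun a =>
      ⟨fun h => ?_, ?_⟩⟩
    · rcases ha : φ a with y | ⟨y, j, r⟩
      · rw [ha] at h
        have : x = y := h.1
        subst this
        exact φ.injective (ha.trans hz.symm)
      · rw [ha] at h
        obtain ⟨e1, e2, -⟩ := h
        subst e1; subst e2
        exact absurd ha (hi a r)
    · rintro rfl
      rw [hz]
      exact ⟨rfl, hq0⟩
  · -- a free neighbour
    have hz' : φ s = loc x i (some p) := hz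
    obtain ⟨d, hd1, hd2⟩ : ∃ d, H.Reachable s d ∧ φ d = .inl x := by
      by_contra hno
      apply hs
      refine small hR (by omega) (by omega) φ fun c hc y hy => hno ?_
      refine escape φ hc (x := x) (i := i) hz' fun q h => ?_
      rw [hy] at h
      cases h
    set A : Set (Option P) := {q | R.Adj (some p) q} with hA
    set B : Set (Option P) := {q | R.Adj (some p) q ∧ ∃ a, φ a = loc x i q} with hB
    have hBA : B ⊆ A := fun q hq => hq.1
    have hBc : B.ncard ≤ (H.neighborSet s).ncard := by
      refine Set.ncard_le_ncard_of_injOn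
        (fun q => if h : ∃ a, φ a = loc x i q then h.choose else s) ?_ ?_ (Set.toFinite _)
      · rintro q ⟨hq, hq2⟩
        simp only [hq2, dif_pos]
        show H.Adj s hq2.choose
        rw [← φ.map_adj_iff, hq2.choose_spec, hz', loc_adj]
        exact hq
      · rintro q ⟨hq, hq2⟩ q' ⟨hq', hq2'⟩ he
        simp only [hq2, hq2', dif_pos] at he
        apply loc_inj x i
        rw [← hq2.choose_spec, ← hq2'.choose_spec, he]
    have hAc : A.ncard = k := hR.deg p
    have hAB : (A \ B).ncard + B.ncard = A.ncard :=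
      Set.ncard_sdiff_add_ncard_of_subset hBA (Set.toFinite _)
    by_contra hno
    -- every free neighbour is adjacent to a further vertex of the copy
    have hbad : ∀ q ∈ A \ B, ∃ b z, b ≠ s ∧ φ b = loc x i z ∧ R.Adj q z := by
      rintro q ⟨hqA, hqB⟩
      rcases q with _ | q
      · exact absurd ⟨hqA, d, hd2⟩ hqB
      by_contra hnb
      push Not at hnb
      apply hno
      refine ⟨x, i, q, ⟨d, hd1, hd2⟩, fun a ha => hqB ⟨hqA, a, ha⟩, fun a => ⟨fun h => ?_, ?_⟩⟩
      · by_contra ha
        obtain ⟨z, hz1, hz2⟩ := loc_nbr h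
        exact hnb a z ha hz1 hz2
      · rintro rfl
        rw [hz]
        exact ⟨rfl, rfl, SimpleGraph.Adj.symm hqA⟩
    have : Nonempty W := ⟨s⟩
    choose! b z hb1 hb2 hb3 using hbad
    have hfree : ∀ q ∈ A \ B, ∀ c, φ c ≠ loc x i q := fun q hq c hc => hq.2 ⟨hq.1, c, hc⟩
    -- such a vertex is not in the component of `s`
    have hc1 : ∀ q ∈ A \ B, ¬ H.Reachable s (b q) := by
      intro q hq hreach
      obtain ⟨w⟩ := hreach
      obtain ⟨w', g1, g2, g3⟩ := lift φ w.toPath.1 w.toPath.2 hz' (hb2 q hq)
      have hpz : some p ≠ z q := by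
        intro h
        apply hb1 q hq
        apply φ.injective
        rw [hb2 q hq, ← h, hz']
      have hpq : R.Adj (some p) q := hq.1
      have h5 := hR.uniq _ _ w' (.cons hpq (.cons (hb3 q hq) .nil)) g1
        (by simp [hpq.ne, (hb3 q hq).ne, hpz])
        (by rw [g2]; have := w.toPath.2.length_lt; omega) (by simp; omega)
      have h6 : q ∈ w'.support := by rw [h5]; simp
      obtain ⟨c, hc⟩ := g3 q h6
      exact hfree q hq c hc
    -- its component is a small tree
    have hc2 : ∀ q ∈ A \ B, SmallTree H k (H.connectedComponentMk (b q)) := by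
      intro q hq
      refine small hR (by omega) (by omega) φ fun c hc y hy => ?_
      obtain ⟨d', hd1', hd2'⟩ := escape φ hc (x := x) (i := i) (hb2 q hq) fun r h => by
        rw [hy] at h
        cases h
      have : d' = d := φ.injective (hd2'.trans hd2.symm)
      subst this
      exact hc1 q hq (hd1.trans hd1'.symm)
    -- different free neighbours give different components
    have hc3 : Set.InjOn (fun q => H.connectedComponentMk (b q)) (A \ B) := by
      intro q hq q' hq' he
      by_contra hne
      obtain ⟨w⟩ := SimpleGraph.ConnectedComponent.exact he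
      obtain ⟨w', g1, g2, g3⟩ := lift φ w.toPath.1 w.toPath.2 (hb2 q hq) (hb2 q' hq')
      have hpq : R.Adj (some p) q := hq.1
      have hpq' : R.Adj (some p) q' := hq'.1
      have hpz : some p ≠ z q := by
        intro h
        apply hb1 q hq
        apply φ.injective
        rw [hb2 q hq, ← h, hz']
      have hpz' : some p ≠ z q' := by
        intro h
        apply hb1 q' hq'
        apply φ.injective
        rw [hb2 q' hq', ← h, hz']
      have hzq' : z q ≠ q' := fun h => hfree q' hq' (b q) (by rw [hb2 q hq, h])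
      have hqz' : q ≠ z q' := fun h => hfree q hq (b q') (by rw [hb2 q' hq', ← h])
      by_cases hzz : z q = z q'
      · have h3 : R.Adj q' (z q) := by rw [hzz]; exact hb3 q' hq'
        have h5 := hR.uniq _ _ (.cons hpq (.cons (hb3 q hq) .nil)) (.cons hpq' (.cons h3 .nil))
          (by simp [hpq.ne, (hb3 q hq).ne, hpz])
          (by simp [hpq'.ne, h3.ne, hpz]) (by simp; omega) (by simp; omega)
        simp at h5
        exact hne h5
      · have h5 := hR.uniq _ _ w'
          (.cons (hb3 q hq).symm (.cons hpq.symm (.cons hpq' (.cons (hb3 q' hq') .nil)))) g1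
          (by simp [hpq.ne', hpq'.ne, (hb3 q hq).ne', (hb3 q' hq').ne, hpz', hzz, hzq',
            hqz', hne, Ne.symm hpz])
          (by rw [g2]; have := w.toPath.2.length_lt; omega) (by simp; omega)
        have h6 : q ∈ w'.support := by rw [h5]; simp
        obtain ⟨c, hc⟩ := g3 q h6
        exact hfree q hq c hc
    have h7 : (A \ B).ncard ≤ {C : H.ConnectedComponent | SmallTree H k C}.ncard :=
      Set.ncard_le_ncard_of_injOn (fun q => H.connectedComponentMk (b q)) hc2 hc3
        (Set.toFinite _)
    omega

end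

/-- Let `s` and `t` lie in different components of `H`, neither of which is a tree of maximum
degree at most `k`. If the number of components of `H` which are trees of maximum degree at most
`k`, plus the degree of each root, is less than `k`, then `(H, s, t)` is not inherent. -/
theorem result (W : Type) [Fintype W] (H : SimpleGraph W) (s t : W)
    (hst : ¬ H.Reachable s t) (k : ℕ)
    (hs : ¬ SmallTree H k (H.connectedComponentMk s))
    (ht : ¬ SmallTree H k (H.connectedComponentMk t))
    (hks : {C : H.ConnectedComponent | SmallTree H k C}.ncard + (H.neighborSet s).ncard < k)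
    (hkt : {C : H.ConnectedComponent | SmallTree H k C}.ncard + (H.neighborSet t).ncard < k) :
    ¬ Inherent H s t := by
  obtain ⟨P, hP, R, hR⟩ := exists_pocket k (Fintype.card W + 4) (by omega)
  have := Fintype.ofFinite P
  intro hinh
  obtain ⟨φ, hφ⟩ := hinh _ (attach H (Fintype.card W + 1) R) ⟨core H _ R⟩
  obtain ⟨x, i, q, ⟨d, hd1, hd2⟩, hq1, hq2⟩ := pick hR le_rfl (Nat.lt_succ_self _) hs hks φ
  obtain ⟨y, j, r, ⟨e, he1, he2⟩, hr1, hr2⟩ := pick hR le_rfl (Nat.lt_succ_self _) ht hkt φ
  have hxy : x ≠ y := by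
    rintro rfl
    have h1 : d = e := φ.injective (hd2.trans he2.symm)
    subst h1
    exact hst (hd1.trans he1.symm)
  have hext : IsExtension φ s t (.inr (x, i, q)) (.inr (y, j, r)) := by
    refine ⟨?_, ?_, ?_, ?_, hq2, hr2⟩
    · intro h
      simp only [Sum.inr.injEq, Prod.mk.injEq] at h
      exact hxy h.1
    · rintro ⟨a, ha⟩
      exact hq1 a ha
    · rintro ⟨a, ha⟩
      exact hr1 a ha
    · intro h
      exact hxy h.1
  obtain ⟨p, -, -, hp⟩ := hφ _ _ hext
  have hmem := sep p (x := x) (i := i) ⟨some q, rfl⟩ (by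
    intro r' h
    simp only [Sum.inr.injEq, Prod.mk.injEq] at h
    exact hxy h.1.symm)
  exact (hp _ hmem (by simp) (by simp) d).1 hd2.symm

end Pool.Agent.Results.MP_4a1452_co.FewSmallTrees
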