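import Pool.Agent.H50.Inh.Defs

/-!
# Inherence of two-rooted graphs with roots in different components: forms modulo 2

The graphs without avoidable copies are the graphs of symmetric bilinear forms over the field with
two elements, with many copies of every vector.
-/

set_option autoImplicit false
open Classical Finset

namespace Pool.Agent.Results.MP_4a1452_co.FormsModTwo

open Pool.Agent.H50.Inh

variable {W V : Type}

/-- The linear system modulo `2` with the matrix `A + ε I`, `A` the adjacency matrix of `H`, and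
the right hand side `1` at `s` and `0` elsewhere, has a solution whose value at `s` is `ε`. -/
def Solvable [Fintype W] (H : SimpleGraph W) (ε : ZMod 2) (s : W) : Prop :=
  ∃ c : W → ZMod 2, c s = ε ∧
    ∀ u, ε * c u + ∑ v, (if H.Adj u v then c v else 0) = if u = s then 1 else 0

/-! ### forms modulo 2 -/

section Forms

theorem zmod2 (a : ZMod 2) : a = 0 ∨ a = 1 := by
  revert a; decide

/-- entries of `A + ε I` -/
noncomputable def ent (H : SimpleGraph W) (ε : ZMod 2) (u v : W) : ZMod 2 :=
  (if H.Adj u v then 1 else 0) + if u = v then ε else 0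

/-- the graph of a symmetric bilinear form: the vertices are the labelled vectors `x` with
`B x x = ε`, two vertices are adjacent if `B x y = 1` -/
def formGraph {M : Type} [AddCommGroup M] [Module (ZMod 2) M]
    (B : LinearMap.BilinForm (ZMod 2) M) (hB : ∀ x y, B x y = B y x) (ε : ZMod 2) (K : ℕ) :
    SimpleGraph {p : M × Fin K // B p.1 p.1 = ε} where
  Adj p q := p ≠ q ∧ B p.1.1 q.1.1 = 1
  symm := ⟨fun p q h => ⟨h.1.symm, by rw [hB]; exact h.2⟩⟩
  loopless := ⟨fun p h => h.1 rfl⟩

theorem ent_symm (H : SimpleGraph W) (ε : ZMod 2) (u v : W) : ent H ε u v = ent H ε v u := by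
  unfold ent
  simp only [H.adj_comm u v, eq_comm (a := u) (b := v)]

theorem ent_self (H : SimpleGraph W) (ε : ZMod 2) (u : W) : ent H ε u u = ε := by
  unfold ent
  simp

/-- a solution which vanishes outside the component of `s` -/
theorem restrict [Fintype W] {H : SimpleGraph W} {s : W} {ε : ZMod 2} (hs : Solvable H ε s) :
    ∃ c : W → ZMod 2, c s = ε ∧ (∀ v, ¬ H.Reachable s v → c v = 0) ∧
      ∀ u, ∑ v, c v * ent H ε v u = if u = s then 1 else 0 := by
  obtain ⟨c, hcs, hc⟩ := hs
  refine ⟨fun v => if H.Reachable s v then c v else 0, ?_, ?_, ?_⟩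
  · simp [hcs]
  · intro v hv
    simp [hv]
  · intro u
    by_cases hu : H.Reachable s u
    · rw [← hc u]
      have h1 : ∀ v, (if H.Reachable s v then c v else 0) * ent H ε v u =
          (if v = u then ε * c v else 0) + if H.Adj u v then c v else 0 := by
        intro v
        unfold ent
        by_cases hv : v = u
        · subst hv
          simp [hu]
          ring
        · by_cases ha : H.Adj u v
          · have hr : H.Reachable s v := hu.trans ha.reachable
            simp [hr, ha, ha.symm, hv]
          · have ha' : ¬ H.Adj v u := fun h => ha h.symm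
            simp [ha, ha', hv]
      rw [Finset.sum_congr rfl fun v _ => h1 v, Finset.sum_add_distrib, Finset.sum_ite_eq']
      simp
    · have hus : u ≠ s := by
        rintro rfl
        exact hu (SimpleGraph.Reachable.refl _)
      rw [if_neg hus]
      refine Finset.sum_eq_zero fun v _ => ?_
      by_cases hv : H.Reachable s v
      · have h1 : ¬ H.Adj v u := fun h => hu (hv.trans h.reachable)
        have h2 : v ≠ u := by rintro rfl; exact hu hv
        simp [ent, h1, h2]
      · simp [hv]

theorem form_main [Fintype W] {H : SimpleGraph W} {s t : W} (hst : ¬ H.Reachable s t)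
    {ε : ZMod 2} (hs : Solvable H ε s) (ht : Solvable H ε t) : ¬ Inherent H s t := by
  -- the form
  let B : LinearMap.BilinForm (ZMod 2) (W → ZMod 2) :=
    Matrix.toBilin' (Matrix.of fun u v => ent H ε u v)
  have hB : ∀ x y, B x y = B y x := by
    intro x y
    simp only [B, Matrix.toBilin'_apply, Matrix.of_apply]
    rw [Finset.sum_comm]
    refine Finset.sum_congr rfl fun u _ => Finset.sum_congr rfl fun v _ => ?_
    rw [ent_symm H ε v u]
    ring
  have hBs : ∀ u v, B (Pi.single u 1) (Pi.single v 1) = ent H ε u v := by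
    intro u v
    simp only [B, Matrix.toBilin'_single, Matrix.of_apply]
  obtain ⟨c, hcs, hc0, hc⟩ := restrict hs
  obtain ⟨d, hdt, hd0, hd⟩ := restrict ht
  set K := Fintype.card W + 2 with hK
  have hK0 : 0 < K := by omega
  -- the graph contains `H`
  have hself : ∀ u : W, B ((Pi.single u 1 : W → ZMod 2)) (Pi.single u 1) = ε := by
    intro u
    rw [hBs, ent_self]
  let φ₀ : H ↪g formGraph B hB ε K :=
    { toFun := fun u => ⟨(Pi.single u 1, ⟨0, hK0⟩), hself u⟩
      inj' := by
        intro u v huv
        have h1 : (Pi.single u 1 : W → ZMod 2) = Pi.single v 1 :=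
          congrArg (fun p => p.1.1) huv
        by_contra hne
        have h2 := congrFun h1 u
        rw [Pi.single_eq_same, Pi.single_eq_of_ne hne] at h2
        exact one_ne_zero h2
      map_rel_iff' := by
        intro u v
        show (_ ≠ _ ∧ B (Pi.single u 1) (Pi.single v 1) = 1) ↔ H.Adj u v
        rw [hBs]
        constructor
        · rintro ⟨h1, h2⟩
          have huv : u ≠ v := by rintro rfl; exact h1 rfl
          by_contra h3
          simp [ent, h3, huv] at h2
        · intro h
          refine ⟨?_, by simp [ent, h, h.ne]⟩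
          intro h3
          have h4 : (Pi.single u 1 : W → ZMod 2) = Pi.single v 1 :=
            congrArg (fun p => p.1.1) h3
          have h5 := congrFun h4 u
          rw [Pi.single_eq_same, Pi.single_eq_of_ne h.ne] at h5
          exact one_ne_zero h5 }
  refine not_inherent _ (formGraph B hB ε K) φ₀ fun φ => ?_
  -- labels
  obtain ⟨k1, k2, hk, hk1, hk2⟩ : ∃ k1 k2 : Fin K, k1 ≠ k2 ∧ (∀ v, (φ v).1.2 ≠ k1) ∧
      ∀ v, (φ v).1.2 ≠ k2 := by
    have h1 : (Finset.univ.image fun v : W => (φ v).1.2).card ≤ Fintype.card W :=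
      Finset.card_image_le.trans (by simp)
    have h2 : 1 < ((Finset.univ : Finset (Fin K)) \ Finset.univ.image fun v : W =>
        (φ v).1.2).card := by
      have := Finset.le_card_sdiff (Finset.univ.image fun v : W => (φ v).1.2)
        (Finset.univ : Finset (Fin K))
      rw [Finset.card_univ, Fintype.card_fin] at this
      omega
    obtain ⟨k1, h3, k2, h4, h5⟩ := Finset.one_lt_card.1 h2
    refine ⟨k1, k2, h5, ?_, ?_⟩
    · intro v hv
      exact (Finset.mem_sdiff.1 h3).2 (Finset.mem_image.2 ⟨v, Finset.mem_univ _, hv⟩)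
    · intro v hv
      exact (Finset.mem_sdiff.1 h4).2 (Finset.mem_image.2 ⟨v, Finset.mem_univ _, hv⟩)
  -- Gram matrix
  set x : W → W → ZMod 2 := fun v => (φ v).1.1 with hx
  have hG : ∀ u v, B (x u) (x v) = ent H ε u v := by
    intro u v
    by_cases huv : u = v
    · subst huv
      rw [ent_self]
      exact (φ u).2
    · have h1 : (formGraph B hB ε K).Adj (φ u) (φ v) ↔ H.Adj u v := φ.map_rel_iff'
      have h2 : (formGraph B hB ε K).Adj (φ u) (φ v) ↔ φ u ≠ φ v ∧ B (x u) (x v) = 1 := Iff.rfl
      rw [h2] at h1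
      have h3 : φ u ≠ φ v := fun h => huv (φ.injective h)
      unfold ent
      rw [if_neg huv, add_zero]
      by_cases ha : H.Adj u v
      · rw [if_pos ha]
        exact (h1.2 ha).2
      · rw [if_neg ha]
        rcases zmod2 (B (x u) (x v)) with h4 | h4
        · exact h4
        · exact absurd (h1.1 ⟨h3, h4⟩) ha
  have hcomb : ∀ (a : W → ZMod 2) (y : W → ZMod 2),
      B (∑ v, a v • x v) y = ∑ v, a v * B (x v) y := by
    intro a y
    rw [map_sum, LinearMap.sum_apply]
    refine Finset.sum_congr rfl fun v _ => ?_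
    rw [map_smul, LinearMap.smul_apply, smul_eq_mul]
  have hsx : ∀ u, B (∑ v, c v • x v) (x u) = if u = s then 1 else 0 := by
    intro u
    rw [hcomb, ← hc u]
    exact Finset.sum_congr rfl fun v _ => by rw [hG]
  have htx : ∀ u, B (∑ v, d v • x v) (x u) = if u = t then 1 else 0 := by
    intro u
    rw [hcomb, ← hd u]
    exact Finset.sum_congr rfl fun v _ => by rw [hG]
  have hss : B (∑ v, c v • x v) (∑ v, c v • x v) = ε := by
    rw [hcomb, ← hcs]
    rw [Finset.sum_eq_single s]
    · rw [hB, hsx, if_pos rfl, mul_one]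
    · intro v _ hv
      rw [hB, hsx, if_neg hv, mul_zero]
    · simp
  have htt : B (∑ v, d v • x v) (∑ v, d v • x v) = ε := by
    rw [hcomb, ← hdt]
    rw [Finset.sum_eq_single t]
    · rw [hB, htx, if_pos rfl, mul_one]
    · intro v _ hv
      rw [hB, htx, if_neg hv, mul_zero]
    · simp
  have hst0 : B (∑ v, c v • x v) (∑ v, d v • x v) = 0 := by
    rw [hcomb]
    refine Finset.sum_eq_zero fun v _ => ?_
    rw [hB, htx]
    by_cases hv : v = t
    · subst hv
      rw [hc0 v hst, zero_mul]
    · rw [if_neg hv, mul_zero]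
  refine ⟨⟨(∑ v, c v • x v, k1), hss⟩, ⟨(∑ v, d v • x v, k2), htt⟩, ⟨?_, ?_, ?_, ?_, ?_, ?_⟩, ?_⟩
  · intro h
    exact hk (congrArg (fun p => p.1.2) h)
  · rintro ⟨v, hv⟩
    exact hk1 v (congrArg (fun p => p.1.2) hv)
  · rintro ⟨v, hv⟩
    exact hk2 v (congrArg (fun p => p.1.2) hv)
  · rintro ⟨-, h⟩
    have h' : B (∑ v, c v • x v) (∑ v, d v • x v) = 1 := h
    rw [hst0] at h'
    exact zero_ne_one h'
  · intro u
    have h1 : (formGraph B hB ε K).Adj ⟨(∑ v, c v • x v, k1), hss⟩ (φ u) ↔
        (⟨(∑ v, c v • x v, k1), hss⟩ : {p : (W → ZMod 2) × Fin K // B p.1 p.1 = ε}) ≠ φ u ∧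
          B (∑ v, c v • x v) (x u) = 1 := Iff.rfl
    rw [h1, hsx]
    constructor
    · rintro ⟨-, h2⟩
      by_contra h3
      rw [if_neg h3] at h2
      exact zero_ne_one h2
    · intro h2
      refine ⟨fun h3 => hk1 u (congrArg (fun p => p.1.2) h3).symm, by rw [if_pos h2]⟩
  · intro u
    have h1 : (formGraph B hB ε K).Adj ⟨(∑ v, d v • x v, k2), htt⟩ (φ u) ↔
        (⟨(∑ v, d v • x v, k2), htt⟩ : {p : (W → ZMod 2) × Fin K // B p.1 p.1 = ε}) ≠ φ u ∧
          B (∑ v, d v • x v) (x u) = 1 := Iff.rfl
    rw [h1, htx]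
    constructor
    · rintro ⟨-, h2⟩
      by_contra h3
      rw [if_neg h3] at h2
      exact zero_ne_one h2
    · intro h2
      refine ⟨fun h3 => hk2 u (congrArg (fun p => p.1.2) h3).symm, by rw [if_pos h2]⟩
  · rintro z ⟨-, hz⟩ hzr
    have hz' : B (∑ v, c v • x v) z.1.1 = 1 := hz
    rw [hcomb] at hz'
    by_contra hno
    push Not at hno
    have h0 : ∑ v, c v * B (x v) z.1.1 = 0 := by
      refine Finset.sum_eq_zero fun v _ => ?_
      rcases zmod2 (B (x v) z.1.1) with h4 | h4
      · rw [h4, mul_zero]
      · exfalso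
        refine hno v ⟨?_, ?_⟩
        · rintro rfl
          exact hzr ⟨v, rfl⟩
        · show B z.1.1 (φ v).1.1 = 1
          rw [hB]
          exact h4
    rw [h0] at hz'
    exact zero_ne_one hz'

end Forms

/-- Let `s` and `t` lie in different components of `H`. If for `ε = 0` or for `ε = 1` both systems
`(A + ε I) c = e_s`, `c_s = ε` and `(A + ε I) d = e_t`, `d_t = ε` are solvable modulo `2`, then
`(H, s, t)` is not inherent. -/
theorem result (W : Type) [Fintype W] (H : SimpleGraph W) (s t : W)
    (hst : ¬ H.Reachable s t) (ε : ZMod 2) (hs : Solvable H ε s) (ht : Solvable H ε t) :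
    ¬ Inherent H s t :=
  form_main hst hs ht

end Pool.Agent.Results.MP_4a1452_co.FormsModTwo
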