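import Pool.Agent.H50.Inh.Defs

/-!
# Inherence of two-rooted graphs with roots in different components: small root components

The graphs without avoidable copies are obtained from the Cartesian product of `H` and the
incidence graph of a large affine plane by doubling every vertex; the two copies of a vertex are
adjacent in the first case and not adjacent in the second case.
-/

set_option autoImplicit false
open Classical Finset

namespace Pool.Agent.Results.MP_4a1452_co.SmallRootComponent

open Pool.Agent.H50.Inh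

variable {W V : Type}

/-- `s` is an isolated vertex. -/
def Isolated (H : SimpleGraph W) (s : W) : Prop := ∀ a, ¬ H.Adj s a

/-- The component of `s` is an edge. -/
def EdgeComp (H : SimpleGraph W) (s : W) : Prop :=
  ∃ u, (∀ a, H.Adj s a ↔ a = u) ∧ ∀ a, H.Adj u a ↔ a = s

/-- `t` has a true twin: an adjacent vertex with the same closed neighbourhood. -/
def HasTrueTwin (H : SimpleGraph W) (t : W) : Prop :=
  ∃ u, H.Adj t u ∧ ∀ a, a ≠ t → a ≠ u → (H.Adj t a ↔ H.Adj u a)

/-- `t` has a false twin: another vertex with the same neighbourhood. -/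
def HasFalseTwin (H : SimpleGraph W) (t : W) : Prop :=
  ∃ u, u ≠ t ∧ ∀ a, H.Adj t a ↔ H.Adj u a

/-! ### graphs with twins -/

section Twins

variable {P : Type}

/-- the Cartesian product of `H` and `R` -/
def prd (H : SimpleGraph W) (R : SimpleGraph P) (x y : W × P) : Prop :=
  (x.1 = y.1 ∧ R.Adj x.2 y.2) ∨ (H.Adj x.1 y.1 ∧ x.2 = y.2)

theorem prd_symm {H : SimpleGraph W} {R : SimpleGraph P} {x y : W × P} (h : prd H R x y) :
    prd H R y x := by
  rcases h with ⟨h1, h2⟩ | ⟨h1, h2⟩
  · exact Or.inl ⟨h1.symm, h2.symm⟩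
  · exact Or.inr ⟨h1.symm, h2.symm⟩

theorem prd_irrefl {H : SimpleGraph W} {R : SimpleGraph P} {x : W × P} : ¬ prd H R x x := by
  rintro (⟨-, h⟩ | ⟨h, -⟩)
  · exact R.loopless.irrefl _ h
  · exact H.loopless.irrefl _ h

/-- every vertex of the product of `H` and `R` is doubled; the two copies are adjacent if `κ` -/
def dbl (κ : Prop) (H : SimpleGraph W) (R : SimpleGraph P) : SimpleGraph ((W × P) × Bool) where
  Adj x y := prd H R x.1 y.1 ∨ (κ ∧ x.1 = y.1 ∧ x.2 ≠ y.2)
  symm := by
    constructor
    rintro x y (h | ⟨h1, h2, h3⟩)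
    · exact Or.inl (prd_symm h)
    · exact Or.inr ⟨h1, h2.symm, h3.symm⟩
  loopless := by
    constructor
    rintro x (h | ⟨-, -, h⟩)
    · exact prd_irrefl h
    · exact h rfl

/-- the graph contains `H` -/
def emb (κ : Prop) (H : SimpleGraph W) (R : SimpleGraph P) (r : P) : H ↪g dbl κ H R where
  toFun a := ((a, r), false)
  inj' := by
    intro a b h
    exact congrArg (fun p => p.1.1) h
  map_rel_iff' := by
    intro a b
    constructor
    · rintro (h | ⟨-, -, h⟩)
      · rcases h with ⟨-, h⟩ | ⟨h, -⟩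
        · exact absurd h (R.loopless.irrefl _)
        · exact h
      · exact absurd rfl h
    · intro h
      exact Or.inl (Or.inr ⟨h, rfl⟩)

/-- a graph without `4`-cycles of large minimum degree -/
def Sparse [Fintype P] (R : SimpleGraph P) (N : ℕ) : Prop :=
  (∀ r q x y, r ≠ q → R.Adj r x → R.Adj q x → R.Adj r y → R.Adj q y → x = y) ∧
    ∀ r, N ≤ (univ.filter fun q => R.Adj r q).card

/-- points and lines of an affine plane -/
def plane (p : ℕ) : SimpleGraph (ZMod p × ZMod p × Bool) where
  Adj r q := (r.2.2 = false ∧ q.2.2 = true ∧ r.2.1 = q.1 * r.1 + q.2.1) ∨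
    (r.2.2 = true ∧ q.2.2 = false ∧ q.2.1 = r.1 * q.1 + r.2.1)
  symm := by
    constructor
    rintro r q (⟨h1, h2, h3⟩ | ⟨h1, h2, h3⟩)
    · exact Or.inr ⟨h2, h1, h3⟩
    · exact Or.inl ⟨h2, h1, h3⟩
  loopless := by
    constructor
    rintro r (⟨h1, h2, -⟩ | ⟨h1, h2, -⟩) <;> simp [h1] at h2

theorem sparse_plane (p : ℕ) [Fact p.Prime] : Sparse (plane p) p := by
  constructor
  · rintro ⟨x1, y1, b1⟩ ⟨x2, y2, b2⟩ ⟨m1, c1, d1⟩ ⟨m2, c2, d2⟩ hne h1 h2 h3 h4
    simp only [plane] at h1 h2 h3 h4
    cases b1 <;> cases b2 <;> cases d1 <;> cases d2 <;> simp at h1 h2 h3 h4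
    · have h5 : (m1 - m2) * (x1 - x2) = 0 := by linear_combination h3 - h1 + h2 - h4
      rcases mul_eq_zero.1 h5 with h6 | h6
      · have h7 : m1 = m2 := sub_eq_zero.1 h6
        subst h7
        have h8 : c1 = c2 := by linear_combination h3 - h1
        rw [h8]
      · have h7 : x1 = x2 := sub_eq_zero.1 h6
        subst h7
        exact absurd (by rw [h1, h2]) hne
    · have h5 : (x1 - x2) * (m1 - m2) = 0 := by linear_combination h2 - h1 + h3 - h4
      rcases mul_eq_zero.1 h5 with h6 | h6
      · have h7 : x1 = x2 := sub_eq_zero.1 h6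
        subst h7
        have h8 : y1 = y2 := by linear_combination h2 - h1
        exact absurd (by rw [h8]) hne
      · have h7 : m1 = m2 := sub_eq_zero.1 h6
        subst h7
        rw [h1, h3]
  · rintro ⟨x, y, b⟩
    have hp : (univ : Finset (ZMod p)).card = p := by rw [Finset.card_univ, ZMod.card]
    cases b
    · have h1 : ((univ : Finset (ZMod p)).image fun m => (m, y - m * x, true)).card = p := by
        rw [Finset.card_image_of_injective _ (by
          intro m n h
          exact congrArg (fun q => q.1) h), hp]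
      refine h1.symm.le.trans (Finset.card_le_card ?_)
      intro q hq
      obtain ⟨m, -, rfl⟩ := Finset.mem_image.1 hq
      rw [Finset.mem_filter]
      refine ⟨Finset.mem_univ _, Or.inl ⟨rfl, rfl, ?_⟩⟩
      simp
    · have h1 : ((univ : Finset (ZMod p)).image fun m => (m, x * m + y, false)).card = p := by
        rw [Finset.card_image_of_injective _ (by
          intro m n h
          exact congrArg (fun q => q.1) h), hp]
      refine h1.symm.le.trans (Finset.card_le_card ?_)
      intro q hq
      obtain ⟨m, -, rfl⟩ := Finset.mem_image.1 hq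
      rw [Finset.mem_filter]
      exact ⟨Finset.mem_univ _, Or.inr ⟨rfl, rfl, rfl⟩⟩

/-- a pendant neighbour of `T` -/
theorem pendant [Fintype P] {H : SimpleGraph W} {R : SimpleGraph P} {N : ℕ} (hR : Sparse R N)
    (T : W × P) (S : Finset (W × P)) (hT : T ∉ S) (hS : 2 * S.card < N) :
    ∃ z, prd H R z T ∧ ∀ y ∈ S, z ≠ y ∧ ¬ prd H R z y := by
  set A := univ.filter fun q => R.Adj T.2 q with hA
  set bad := S.biUnion fun y => insert y.2 (A.filter fun q => T.1 = y.1 ∧ R.Adj q y.2) with hbad
  have h1 : bad.card ≤ S.card * 2 := by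
    apply Finset.card_biUnion_le_card_mul
    intro y hy
    refine (Finset.card_insert_le _ _).trans ?_
    have h2 : (A.filter fun q => T.1 = y.1 ∧ R.Adj q y.2).card ≤ 1 := by
      rw [Finset.card_le_one]
      intro a ha b hb
      simp only [hA, Finset.mem_filter, Finset.mem_univ, true_and] at ha hb
      have h3 : T.2 ≠ y.2 := by
        intro h4
        apply hT
        have : T = y := Prod.ext ha.2.1 h4
        rwa [this]
      exact hR.1 T.2 y.2 a b h3 ha.1 ha.2.2.symm hb.1 hb.2.2.symm
    omega
  have h2 : N ≤ A.card := hR.2 T.2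
  obtain ⟨q, hq1, hq2⟩ : ∃ q ∈ A, q ∉ bad := by
    by_contra h3
    push Not at h3
    have : A.card ≤ bad.card := Finset.card_le_card h3
    omega
  have hq : R.Adj T.2 q := (Finset.mem_filter.1 hq1).2
  refine ⟨(T.1, q), Or.inl ⟨rfl, hq.symm⟩, fun y hy => ?_⟩
  have h3 : q ∉ insert y.2 (A.filter fun q => T.1 = y.1 ∧ R.Adj q y.2) := fun h =>
    hq2 (Finset.mem_biUnion.2 ⟨y, hy, h⟩)
  rw [Finset.mem_insert, Finset.mem_filter] at h3
  push Not at h3
  refine ⟨fun h => h3.1 (congrArg Prod.snd h), ?_⟩
  rintro (⟨h4, h5⟩ | ⟨-, h5⟩)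
  · exact h3.2 hq1 h4 h5
  · exact h3.1 h5

theorem other {i j : Bool} (h : i ≠ j) : j = !i := by
  cases i <;> cases j <;> simp_all

/-- (1) -/
theorem twin_main [Fintype W] {H : SimpleGraph W} {s t : W} (hst : s ≠ t) (hs : Isolated H s)
    (ht : ¬ HasTrueTwin H t) : ¬ Inherent H s t := by
  obtain ⟨p, hp1, hp2⟩ := Nat.exists_infinite_primes (2 * Fintype.card W + 1)
  have : Fact p.Prime := ⟨hp2⟩
  have : NeZero p := ⟨hp2.ne_zero⟩
  have hR := sparse_plane p
  refine not_inherent _ (dbl True H (plane p)) (emb True H (plane p) (0, 0, false)) fun φ => ?_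
  set X : W → W × (ZMod p × ZMod p × Bool) := fun v => (φ v).1 with hX
  have hadj : ∀ a b, (dbl True H (plane p)).Adj (φ a) (φ b) ↔ H.Adj a b :=
    fun a b => φ.map_rel_iff'
  have hdef : ∀ x y, (dbl True H (plane p)).Adj x y ↔
      prd H (plane p) x.1 y.1 ∨ (True ∧ x.1 = y.1 ∧ x.2 ≠ y.2) := fun _ _ => Iff.rfl
  -- the twin of `s`
  have hnr : ∀ v, φ v ≠ (X s, !(φ s).2) := by
    intro v hv
    apply hs v
    rw [← hadj, hdef, hv]
    exact Or.inr ⟨trivial, rfl, by simp⟩
  have hXs : ∀ v, v ≠ s → X v ≠ X s := by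
    intro v hv h
    by_cases h1 : (φ v).2 = (φ s).2
    · exact hv (φ.injective (Prod.ext h h1))
    · exact hnr v (Prod.ext h (other (Ne.symm h1)))
  -- no other vertex lies over the fibre of `t`
  have hXt : ∀ v, v ≠ t → X v ≠ X t := by
    intro v hv h
    apply ht
    have hne : φ v ≠ φ t := fun h' => hv (φ.injective h')
    have h2 : (φ v).2 ≠ (φ t).2 := fun h' => hne (Prod.ext h h')
    refine ⟨v, ?_, fun a ha1 ha2 => ?_⟩
    · rw [← hadj, hdef]
      exact Or.inr ⟨trivial, h.symm, h2.symm⟩
    · have h3 : X a ≠ X t := by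
        intro h4
        by_cases h5 : (φ a).2 = (φ t).2
        · exact ha1 (φ.injective (Prod.ext h4 h5))
        · apply ha2
          apply φ.injective
          refine Prod.ext (h4.trans h.symm) ?_
          rw [other (Ne.symm h5), other (Ne.symm h2)]
      rw [← hadj, ← hadj, hdef, hdef]
      constructor
      · rintro (h4 | ⟨-, h4, -⟩)
        · refine Or.inl ?_
          rw [show (φ v).1 = (φ t).1 from h]
          exact h4
        · exact absurd h4.symm h3
      · rintro (h4 | ⟨-, h4, -⟩)
        · refine Or.inl ?_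
          rw [← show (φ v).1 = (φ t).1 from h]
          exact h4
        · exact absurd (h4.symm.trans h) h3
  -- the pendant neighbour of `t`
  set S : Finset (W × (ZMod p × ZMod p × Bool)) := (univ.erase t).image X with hS
  have hScard : 2 * S.card < p := by
    have h1 : S.card ≤ Fintype.card W := Finset.card_image_le.trans
      ((Finset.card_erase_le).trans (by simp))
    omega
  have hTS : X t ∉ S := by
    intro h
    obtain ⟨v, hv, h1⟩ := Finset.mem_image.1 h
    exact hXt v (Finset.mem_erase.1 hv).1 h1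
  have hmem : ∀ v, v ≠ t → X v ∈ S := fun v hv =>
    Finset.mem_image.2 ⟨v, Finset.mem_erase.2 ⟨hv, Finset.mem_univ _⟩, rfl⟩
  obtain ⟨z, hz1, hz2⟩ := pendant hR (X t) S hTS hScard
  refine ⟨(X s, !(φ s).2), (z, false), ⟨?_, ?_, ?_, ?_, ?_, ?_⟩, ?_⟩
  · intro h
    exact (hz2 (X s) (hmem s hst)).1 (congrArg Prod.fst h).symm
  · rintro ⟨v, hv⟩
    exact hnr v hv
  · rintro ⟨v, hv⟩
    by_cases hvt : v = t
    · subst hvt
      have : X v = z := congrArg Prod.fst hv
      rw [this] at hz1
      exact prd_irrefl hz1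
    · exact (hz2 (X v) (hmem v hvt)).1 (congrArg Prod.fst hv).symm
  · rw [hdef]
    rintro (h | ⟨-, h, -⟩)
    · exact (hz2 (X s) (hmem s hst)).2 (prd_symm h)
    · exact (hz2 (X s) (hmem s hst)).1 h.symm
  · intro a
    rw [hdef]
    constructor
    · rintro (h | ⟨-, h, -⟩)
      · by_contra ha
        apply hs a
        rw [← hadj, hdef]
        exact Or.inl h
      · by_contra ha
        exact hXs a ha h.symm
    · rintro rfl
      exact Or.inr ⟨trivial, rfl, by simp⟩
  · intro a
    rw [hdef]
    constructor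
    · intro h
      by_contra ha
      rcases h with h | ⟨-, h, -⟩
      · exact (hz2 (X a) (hmem a ha)).2 h
      · exact (hz2 (X a) (hmem a ha)).1 h
    · rintro rfl
      exact Or.inl hz1
  · rintro y hy hyr
    refine ⟨s, ?_⟩
    rw [hdef] at hy
    rcases hy with h | ⟨-, h, h2⟩
    · exact Or.inl (prd_symm h)
    · exfalso
      apply hyr
      refine ⟨s, Prod.ext h ?_⟩
      have := other h2
      rw [Bool.not_not] at this
      exact this.symm

/-- (2) -/
theorem edge_main [Fintype W] {H : SimpleGraph W} {s t : W} (hst : ¬ H.Reachable s t)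
    (hs : EdgeComp H s) (ht : ¬ HasFalseTwin H t) : ¬ Inherent H s t := by
  obtain ⟨u, hu1, hu2⟩ := hs
  have hsu : H.Adj s u := (hu1 u).2 rfl
  have hut : u ≠ t := by
    rintro rfl
    exact hst hsu.reachable
  obtain ⟨p, hp1, hp2⟩ := Nat.exists_infinite_primes (2 * Fintype.card W + 1)
  have : Fact p.Prime := ⟨hp2⟩
  have : NeZero p := ⟨hp2.ne_zero⟩
  have hR := sparse_plane p
  refine not_inherent _ (dbl False H (plane p)) (emb False H (plane p) (0, 0, false)) fun φ => ?_
  set X : W → W × (ZMod p × ZMod p × Bool) := fun v => (φ v).1 with hX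
  have hdef : ∀ x y, (dbl False H (plane p)).Adj x y ↔ prd H (plane p) x.1 y.1 := by
    intro x y
    constructor
    · rintro (h | ⟨h, -⟩)
      · exact h
      · exact h.elim
    · exact Or.inl
  have hadj : ∀ a b, prd H (plane p) (X a) (X b) ↔ H.Adj a b := by
    intro a b
    rw [← hdef]
    exact φ.map_rel_iff'
  -- the twin of `u`
  have hnr : ∀ v, φ v ≠ (X u, !(φ u).2) := by
    intro v hv
    have h1 : X v = X u := by
      show (φ v).1 = X u
      rw [hv]
    have h2 : H.Adj s v := by
      rw [← hadj, h1, hadj]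
      exact hsu
    have h3 := (hu1 v).1 h2
    subst h3
    have := congrArg Prod.snd hv
    simp at this
  have hXt : ∀ v, v ≠ t → X v ≠ X t := by
    intro v hv h
    refine ht ⟨v, hv, fun a => ?_⟩
    rw [← hadj, ← hadj, h]
  set S : Finset (W × (ZMod p × ZMod p × Bool)) := (univ.erase t).image X with hS
  have hScard : 2 * S.card < p := by
    have h1 : S.card ≤ Fintype.card W := Finset.card_image_le.trans
      ((Finset.card_erase_le).trans (by simp))
    omega
  have hTS : X t ∉ S := by
    intro h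
    obtain ⟨v, hv, h1⟩ := Finset.mem_image.1 h
    exact hXt v (Finset.mem_erase.1 hv).1 h1
  have hmem : ∀ v, v ≠ t → X v ∈ S := fun v hv =>
    Finset.mem_image.2 ⟨v, Finset.mem_erase.2 ⟨hv, Finset.mem_univ _⟩, rfl⟩
  obtain ⟨z, hz1, hz2⟩ := pendant hR (X t) S hTS hScard
  refine ⟨(X u, !(φ u).2), (z, false), ⟨?_, ?_, ?_, ?_, ?_, ?_⟩, ?_⟩
  · intro h
    exact (hz2 (X u) (hmem u hut)).1 (congrArg Prod.fst h).symm
  · rintro ⟨v, hv⟩
    exact hnr v hv
  · rintro ⟨v, hv⟩
    by_cases hvt : v = t
    · subst hvt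
      have : X v = z := congrArg Prod.fst hv
      rw [this] at hz1
      exact prd_irrefl hz1
    · exact (hz2 (X v) (hmem v hvt)).1 (congrArg Prod.fst hv).symm
  · rw [hdef]
    intro h
    exact (hz2 (X u) (hmem u hut)).2 (prd_symm h)
  · intro a
    rw [hdef]
    show prd H (plane p) (X u) (X a) ↔ a = s
    rw [hadj, hu2]
  · intro a
    rw [hdef]
    constructor
    · intro h
      by_contra ha
      exact (hz2 (X a) (hmem a ha)).2 h
    · rintro rfl
      exact hz1
  · rintro y hy -
    refine ⟨u, ?_⟩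
    rw [hdef] at hy ⊢
    exact prd_symm hy

end Twins

/-- Let `(H, s, t)` be inherent and let `s` and `t` lie in different components. If `s` is isolated,
then `t` has a true twin; if the component of `s` is an edge, then `t` has a false twin. The same
holds with `s` and `t` exchanged. -/
theorem result (W : Type) [Fintype W] (H : SimpleGraph W) (s t : W)
    (hst : ¬ H.Reachable s t) (hinh : Inherent H s t) :
    (Isolated H s → HasTrueTwin H t) ∧ (EdgeComp H s → HasFalseTwin H t) ∧
    (Isolated H t → HasTrueTwin H s) ∧ (EdgeComp H t → HasFalseTwin H s) := by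
  have hts : ¬ H.Reachable t s := fun h => hst h.symm
  have hne : s ≠ t := by
    rintro rfl
    exact hst (SimpleGraph.Reachable.refl _)
  refine ⟨fun h1 => ?_, fun h1 => ?_, fun h1 => ?_, fun h1 => ?_⟩
  · by_contra h2
    exact twin_main hne h1 h2 hinh
  · by_contra h2
    exact edge_main hst h1 h2 hinh
  · by_contra h2
    exact twin_main hne.symm h1 h2 hinh.symm
  · by_contra h2
    exact edge_main hts h1 h2 hinh.symm

end Pool.Agent.Results.MP_4a1452_co.SmallRootComponent
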